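import Pool.Agent.V11179.SubwordSeqAsymp

/-!
The number `a_k(n)` of distinct subword complexity sequences of words of length `n` over `k`
letters is at most `exp (78 n^(2/3) log (n+2))`, for every `k`.  In particular, for every `k ≥ 2`
the ratio `a_k(n) / (log_2 k * 2^(n/2))` tends to `0`, so the conjecture
`a_k(n) ~ log_2 k * 2^(n/2)` fails for every `k ≥ 2`.
-/

namespace Pool.Agent.Results.MP_c3017e_co.Subexponential

open Filter Topology

/-- the number of distinct subwords (blocks of consecutive letters) of length `m` of `w` -/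
noncomputable def subwordCount {A : Type} (w : List A) (m : ℕ) : ℕ :=
  {u : List A | u <:+: w ∧ u.length = m}.ncard

/-- `a_k(n)`, the number of distinct sequences `(p_w(1), ..., p_w(n))`, where `w` ranges over the
words of length `n` over an alphabet with `k` letters -/
noncomputable def seqCount (k n : ℕ) : ℕ :=
  {p : Fin n → ℕ | ∃ w : List (Fin k), w.length = n ∧
    ∀ i : Fin n, p i = subwordCount w ((i : ℕ) + 1)}.ncard

theorem result :
    (∀ k n : ℕ, 1 ≤ n →
      (seqCount k n : ℝ) ≤ Real.exp (78 * (n : ℝ) ^ (2 / 3 : ℝ) * Real.log (n + 2))) ∧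
    (∀ k : ℕ, 2 ≤ k →
      Tendsto (fun n : ℕ => (seqCount k n : ℝ) / (Real.logb 2 k * 2 ^ ((n : ℝ) / 2)))
        atTop (𝓝 0)) ∧
    (∀ k : ℕ, 2 ≤ k →
      ¬ Tendsto (fun n : ℕ => (seqCount k n : ℝ) / (Real.logb 2 k * 2 ^ ((n : ℝ) / 2)))
        atTop (𝓝 1)) := by
  have h1 : ∀ k n : ℕ, 1 ≤ n →
      (seqCount k n : ℝ) ≤ Real.exp (78 * (n : ℝ) ^ (2 / 3 : ℝ) * Real.log (n + 2)) := by
    intro k n hn
    apply V11179.SubwordSeq.exp_bound n hn
    intro q hq
    exact V11179.SubwordSeq.seqs_ncard_le (Fin k) n q hq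
  have h2 : ∀ k : ℕ, 2 ≤ k →
      Tendsto (fun n : ℕ => (seqCount k n : ℝ) / (Real.logb 2 k * 2 ^ ((n : ℝ) / 2)))
        atTop (𝓝 0) := by
    intro k hk
    have hk2 : (2 : ℝ) ≤ k := by exact_mod_cast hk
    have hlog : 0 < Real.logb 2 k := Real.logb_pos (by norm_num) (by linarith)
    have h := V11179.SubwordSeq.ratio_tendsto (seqCount k) (h1 k) (2 ^ (1 / 2 : ℝ))
      (Real.one_lt_rpow (by norm_num) (by norm_num)) (Real.logb 2 k) hlog
    refine h.congr (fun n => ?_)
    rw [← Real.rpow_mul (by norm_num)]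
    congr 3
    ring
  refine ⟨h1, h2, ?_⟩
  intro k hk h
  have := tendsto_nhds_unique h (h2 k hk)
  norm_num at this

end Pool.Agent.Results.MP_c3017e_co.Subexponential
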